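import Pool.Agent.X18.Menon

set_option autoImplicit false

/-!
# Symmetric designs with Menon parameters on which an arbitrary group acts semiregularly

There is a constant `C` such that every finite group `Γ` of even order `2 u`, `2 u ≤ 2 ↑↑ k` (the
power tower of `k` twos), whose order is divisible by `2 ^ C ^ (k + 1)`, acts semiregularly, with `2 u`
orbits, on the points and on the blocks of a symmetric `(4 u², 2 u² - u, u² - u)` design. In
particular, for every finite group `G` and all `t ≥ C ^ (1 + log* ...)` this holds for `Γ = G × Z_2 ^ t`,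
so every finite group is a semiregular automorphism group of such designs.
-/

namespace Pool.Agent.Results.MP_3038d1_co.ArbitraryGroups

open Finset

/-- `B` lists the `v = |X|` blocks of a symmetric `(v, k, l)` design with point set `X`, the blocks
being indexed by `X` as well: `k < v`, `0 < l`, every block has `k` points, every point is in `k` blocks,
any two distinct points are in exactly `l` common blocks and any two distinct blocks have exactly `l`
common points. -/
def IsSymmetricDesign (X : Type) [Fintype X] [DecidableEq X] (v k l : ℕ) (B : X → Finset X) : Prop :=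
  Fintype.card X = v ∧ k < v ∧ 0 < l ∧ (∀ i, (B i).card = k) ∧
  (∀ x, (univ.filter (fun i => x ∈ B i)).card = k) ∧
  (∀ x y, x ≠ y → (univ.filter (fun i => x ∈ B i ∧ y ∈ B i)).card = l) ∧
  (∀ i j, i ≠ j → (B i ∩ B j).card = l)

theorem result : ∃ C : ℕ, ∀ (Γ : Type) [Group Γ] [Fintype Γ] [DecidableEq Γ] (k u : ℕ),
    Fintype.card Γ = 2 * u → 2 * u ≤ (fun x : ℕ => 2 ^ x)^[k] 1 → 2 ^ (C ^ (k + 1)) ∣ 2 * u →
    ∃ B : Γ × Fin (2 * u) → Finset (Γ × Fin (2 * u)),
      IsSymmetricDesign (Γ × Fin (2 * u)) (4 * u ^ 2) (2 * u ^ 2 - u) (u ^ 2 - u) B ∧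
      ∀ (g x : Γ) (a : Fin (2 * u)), B (g * x, a) = (B (x, a)).image (fun q => (g * q.1, q.2)) := by
  obtain ⟨C, hC2, hC⟩ := Pool.Agent.W851.Had.main_had
  refine ⟨C, ?_⟩
  intro Γ _ _ _ k u hcard hk hd
  have hu0 : 0 < u := by
    have : 0 < Fintype.card Γ := Fintype.card_pos
    omega
  obtain ⟨q, hq⟩ := hd
  have hT : 2 ≤ C ^ (k + 1) := by
    calc 2 ≤ C := hC2
      _ ≤ C ^ (k + 1) := Nat.le_self_pow (by omega) _
  have h4 : 4 ≤ 2 ^ (C ^ (k + 1)) := by
    calc 4 = 2 ^ 2 := by norm_num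
      _ ≤ _ := Nat.pow_le_pow_right (by norm_num) hT
  have hq0 : 0 < q := by
    rcases Nat.eq_zero_or_pos q with h | h
    · rw [h, mul_zero] at hq; omega
    · exact h
  have hu2 : 2 ≤ u := by
    have := Nat.mul_le_mul h4 hq0
    omega
  have hHad : Pool.Agent.H108R3.Had.HasHad (2 * u) := by
    rw [hq]
    apply hC k q _ _ le_rfl
    refine le_trans ?_ hk
    rw [hq]
    exact Nat.le_mul_of_pos_left _ (by positivity)
  obtain ⟨B, h1, h2, h3, h5, h6⟩ := Pool.Agent.X18.Menon.design hcard hHad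
  have e1 : ∀ m : ℕ, 2 * (m : ℤ) = ((2 * u : ℕ) : ℤ) ^ 2 - ((2 * u : ℕ) : ℤ) → m = 2 * u ^ 2 - u := by
    intro m hm
    have h7 : u ≤ 2 * u ^ 2 := by nlinarith
    zify [h7]
    push_cast at hm
    nlinarith
  have e2 : ∀ m : ℕ, 4 * (m : ℤ) = ((2 * u : ℕ) : ℤ) ^ 2 - 2 * ((2 * u : ℕ) : ℤ) → m = u ^ 2 - u := by
    intro m hm
    have h7 : u ≤ u ^ 2 := by nlinarith
    zify [h7]
    push_cast at hm
    nlinarith
  refine ⟨B, ⟨?_, ?_, ?_, ?_, ?_, ?_, ?_⟩, ?_⟩
  · rw [Fintype.card_prod, Fintype.card_fin, hcard]; ring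
  · have : 0 < u ^ 2 := by positivity
    omega
  · have : u < u ^ 2 := by nlinarith
    omega
  · intro i; exact e1 _ (h1 i)
  · intro x; exact e1 _ (h2 x)
  · intro x y hxy; exact e2 _ (h5 x y hxy)
  · intro i j hij; exact e2 _ (h3 i j hij)
  · intro g x a
    ext ⟨y, b⟩
    rw [mem_image]
    constructor
    · intro h
      refine ⟨(g⁻¹ * y, b), ?_, ?_⟩
      · rw [← h6 g x (g⁻¹ * y) a b, mul_inv_cancel_left]
        exact h
      · simp only [mul_inv_cancel_left]
    · rintro ⟨⟨z, c⟩, h7, h8⟩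
      simp only [Prod.mk.injEq] at h8
      rw [← h8.1, ← h8.2]
      exact (h6 g x z a c).2 h7

end Pool.Agent.Results.MP_3038d1_co.ArbitraryGroups
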