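import Pool.Agent.X18.HadPow

set_option autoImplicit false

/-!
# Symmetric designs with Hadamard and Menon parameters built on high powers of `v = -1` modulo `2 ^ t`

Let `w = v ^ 2 ^ (j + 1)`, where `v ≤ 2 ↑↑ n`, `2 ^ t ∣ v + 1`, `t ≥ 2 ^ C ^ (n + 1)` and `j` is
ANY natural number. Then there are symmetric designs with the parameters
`(4 w - 1, 2 w - 1, w - 1)`, `(2 w + 1, w, (w - 1) / 2)`, `(w - 2, (w - 3) / 2, (w - 5) / 4)` and
`(4 u², 2 u² - u, u² - u)` for `u = 2 w`, `u = w + 1` and `u = (w - 1) / 2`. The second part is the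
underlying theorem: the same holds for `w = m ^ 2 ^ a` if there are a symmetric core of order `m`
(equivalently, a symmetric conference matrix of order `m + 1`) and a Hadamard matrix of order
`m - 1`.
-/

namespace Pool.Agent.Results.MP_3038d1_co.HighPowerOrders

open Matrix

/-- `B` lists the `v` blocks of a symmetric `(v, k, l)`-design on the point set `Fin v`:
`k < v`, `0 < l`, every block has `k` points, every point is in `k` blocks, any two distinct points
are in exactly `l` common blocks (and any two distinct blocks have exactly `l` common points). -/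
def IsSymmetricDesign (v k l : ℕ) (B : Fin v → Finset (Fin v)) : Prop :=
  k < v ∧ 0 < l ∧ (∀ i, (B i).card = k) ∧
  (∀ x, (Finset.univ.filter (fun i => x ∈ B i)).card = k) ∧
  (∀ x y, x ≠ y → (Finset.univ.filter (fun i => x ∈ B i ∧ y ∈ B i)).card = l) ∧
  (∀ i j, i ≠ j → (B i ∩ B j).card = l)

/-- there is a symmetric `(v, k, l)`-design -/
def DesignExists (v k l : ℕ) : Prop := ∃ B, IsSymmetricDesign v k l B

/-- the six designs belonging to `w` -/
def SixDesigns (w : ℕ) : Prop :=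
  DesignExists (4 * w - 1) (2 * w - 1) (w - 1) ∧
  DesignExists (2 * w + 1) w ((w - 1) / 2) ∧
  DesignExists (w - 2) ((w - 3) / 2) ((w - 5) / 4) ∧
  ∀ u, u = 2 * w ∨ u = w + 1 ∨ u = (w - 1) / 2 →
    DesignExists (4 * u ^ 2) (2 * u ^ 2 - u) (u ^ 2 - u)

/-- there is a symmetric core of order `m`: a symmetric matrix with zero diagonal, the other
entries `1` or `-1`, all row sums zero and `B * B = m I - J` -/
def SymmetricCore (m : ℕ) : Prop :=
  ∃ B : Matrix (Fin m) (Fin m) ℤ, (∀ x, B x x = 0) ∧ (∀ x y, x ≠ y → B x y = 1 ∨ B x y = -1) ∧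
    Bᵀ = B ∧ (∀ x, ∑ y, B x y = 0) ∧
    B * B = (m : ℤ) • (1 : Matrix (Fin m) (Fin m) ℤ) - Matrix.of (fun _ _ => (1 : ℤ))

/-- there is a Hadamard matrix of order `n` -/
def HadamardOrder (n : ℕ) : Prop :=
  ∃ H : Matrix (Fin n) (Fin n) ℤ, (∀ i j, H i j = 1 ∨ H i j = -1) ∧
    H * Hᵀ = (n : ℤ) • (1 : Matrix (Fin n) (Fin n) ℤ)

theorem result :
    (∃ C : ℕ, ∀ n v t j : ℕ, v ≤ (fun x : ℕ => 2 ^ x)^[n] 1 → 2 ^ C ^ (n + 1) ≤ t →
      2 ^ t ∣ v + 1 → SixDesigns (v ^ 2 ^ (j + 1))) ∧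
    (∀ m a : ℕ, m % 4 = 1 → 9 ≤ m ^ 2 ^ a → SymmetricCore m → HadamardOrder (m - 1) →
      SixDesigns (m ^ 2 ^ a)) := by
  have key : ∀ m a : ℕ, m % 4 = 1 → 9 ≤ m ^ 2 ^ a →
      (∃ B : Fin m → Fin m → ℤ, Pool.Agent.Y342.SK.IsCoreG 1 B) → HadamardOrder (m - 1) →
      SixDesigns (m ^ 2 ^ a) := by
    rintro m a h4 h9 ⟨B, hB⟩ hH
    obtain ⟨h1, h2, h3⟩ := Pool.Agent.X18.HadPow.three hB (by omega) hH a
    exact Pool.Agent.X18.HadPow.designs h9 (Pool.Agent.X18.HadPow.mod4 h4 a) h1 h2 h3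
  refine ⟨?_, ?_⟩
  · obtain ⟨C, hC⟩ := Pool.Agent.X18.HadPow.main
    refine ⟨C, fun n v t j hv ht hd => ?_⟩
    obtain ⟨h3, h4, h1, hB⟩ := hC n v t hv ht hd
    have h9 : 9 ≤ v ^ 2 := by nlinarith
    have h5 : v ^ 2 % 4 = 1 := by
      rw [Nat.pow_mod, h4]
    have e : v ^ 2 ^ (j + 1) = (v ^ 2) ^ 2 ^ j := by
      rw [← pow_mul, pow_succ 2 j, mul_comm 2]
    rw [e]
    exact key _ j h5 (h9.trans (Nat.le_self_pow (by positivity) _)) hB h1
  · rintro m a h4 h9 ⟨B, b1, b2, b3, b4, b5⟩ hH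
    refine key m a h4 h9 ⟨fun x y => B x y, fun x => b1 x, fun x y h => b2 x y h, fun x y => ?_,
      fun x => b4 x, fun x y => ?_⟩ hH
    · rw [one_mul]
      exact congrFun (congrFun b3 x) y
    · have h := congrFun (congrFun b5 x) y
      rw [Matrix.mul_apply, Matrix.sub_apply, Matrix.smul_apply, Matrix.one_apply,
        Matrix.of_apply] at h
      have h2 : ∀ z, B y z = B z y := fun z => congrFun (congrFun b3 z) y
      rw [Fintype.card_fin]
      simp only [h2]
      rw [h]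
      by_cases hxy : x = y <;> simp [hxy]

end Pool.Agent.Results.MP_3038d1_co.HighPowerOrders
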