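import Pool.Agent.X18.HalfDes

set_option autoImplicit false

/-!
# Nearly complete symmetric designs with Hadamard parameters on every large `v = 3 (mod 4)` points

For every `A` and every large `v ≡ 3 (mod 4)` there are `2 m ≥ v - v / (log v) ^ A` distinct blocks
`B b i` (`b` one of two colours, `i < m`) of size `(v - 1) / 2` in a set of `v` points such that every
block meets all others but at most one in exactly `(v - 3) / 4` points. In particular there is always
half of a symmetric `(v, (v - 1) / 2, (v - 3) / 4)` design.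
-/

namespace Pool.Agent.Results.MP_3038d1_co.NearlyComplete

theorem result (A : ℕ) : ∃ v₀ : ℕ, ∀ v : ℕ, v₀ ≤ v → v % 4 = 3 →
    ∃ (m : ℕ) (B : Bool → Fin m → Finset (Fin v)),
      (v : ℝ) - v / Real.log v ^ A ≤ 2 * m ∧
      (∀ b i, (B b i).card = (v - 1) / 2) ∧
      (∀ b b' i j, i ≠ j → (B b i ∩ B b' j).card = (v - 3) / 4) ∧
      (∀ i, B true i ≠ B false i) := by
  obtain ⟨v₀, h⟩ := Pool.Agent.X18.HalfDes.main A
  refine ⟨v₀, fun v hv h4 => ?_⟩
  obtain ⟨m, B, -, h1, h2, h3, h5⟩ := h v hv h4
  refine ⟨m, B, h1, fun b i => ?_, fun b b' i j hij => ?_, h5⟩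
  · have := h2 b i
    omega
  · have := h3 b b' i j hij
    omega

end Pool.Agent.Results.MP_3038d1_co.NearlyComplete
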