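import Pool.Agent.X18.HadSum4

set_option autoImplicit false

/-!
# Sums and differences of the parameters of symmetric designs

Call an even number `u ≥ 4` good if there are both a symmetric `(4 u², 2 u² - u, u² - u)` design (Menon
parameters) and a symmetric `(2 u - 1, u - 1, u / 2 - 1)` design (Hadamard parameters). Every large even
number is the sum of two good numbers, the smaller of which is at most `2 ^ C ^ (1 + log* u)`, and every
even number is a difference of two good numbers in many ways.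
-/

namespace Pool.Agent.Results.MP_3038d1_co.SumsAndDifferences

open Finset

/-- `B` lists the `v` blocks of a symmetric `(v, k, l)`-design on the point set `Fin v`:
`k < v`, `0 < l`, every block has `k` points, every point is in `k` blocks, any two distinct points
are in exactly `l` common blocks (and any two distinct blocks have exactly `l` common points). -/
def IsSymmetricDesign (v k l : ℕ) (B : Fin v → Finset (Fin v)) : Prop :=
  k < v ∧ 0 < l ∧ (∀ i, (B i).card = k) ∧
  (∀ x, (Finset.univ.filter (fun i => x ∈ B i)).card = k) ∧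
  (∀ x y, x ≠ y → (Finset.univ.filter (fun i => x ∈ B i ∧ y ∈ B i)).card = l) ∧
  (∀ i j, i ≠ j → (B i ∩ B j).card = l)

/-- the good numbers -/
def Good (u : ℕ) : Prop :=
  2 ∣ u ∧ 4 ≤ u ∧ (∃ B, IsSymmetricDesign (4 * u ^ 2) (2 * u ^ 2 - u) (u ^ 2 - u) B) ∧
    ∃ B, IsSymmetricDesign (2 * u - 1) (u - 1) (u / 2 - 1) B

theorem result : ∃ C N : ℕ,
    (∀ u k : ℕ, N ≤ u → 2 ∣ u → 2 * u ≤ (fun x : ℕ => 2 ^ x)^[k] 1 →
      ∃ a b : ℕ, Good a ∧ Good b ∧ a + b = u ∧ a ≤ 2 ^ (C ^ (k + 1))) ∧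
    ∀ x k h : ℕ, N ≤ x → 2 * x ≤ (fun x : ℕ => 2 ^ x)^[k] 1 → 2 ∣ h → h ≤ x →
      (x : ℝ) / (2 ^ (C ^ (k + 1)) * Real.log x) ≤
        ({u : ℕ | u ≤ x ∧ Good u ∧ Good (u + h)}.ncard : ℝ) := by
  obtain ⟨C₁, N₁, h₁⟩ := Pool.Agent.X18.HadSum.two_orders2
  obtain ⟨C₂, N₂, h₂⟩ := Pool.Agent.X18.HadSum.twins2
  have good : ∀ u : ℕ, 2 ∣ u → 4 ≤ u → Pool.Agent.H108R3.Had.HasHad (2 * u) → Good u :=
    fun u h1 h2 h3 => ⟨h1, h2, Pool.Agent.X18.HadSum.both_designs h2 h1 h3⟩
  refine ⟨max (max C₁ C₂) 1, max (max N₁ N₂) 2, ?_, ?_⟩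
  · intro u k hu h2 hk
    have hN : N₁ ≤ u := (le_max_left _ _).trans ((le_max_left _ _).trans hu)
    obtain ⟨a, b, ha, hb, ha4, hb4, hab, hHa, hHb, hle⟩ := h₁ (2 * u) k (by omega) (by omega) hk
    obtain ⟨a', rfl⟩ : ∃ a', a = 2 * a' := ⟨a / 2, by omega⟩
    obtain ⟨b', rfl⟩ : ∃ b', b = 2 * b' := ⟨b / 2, by omega⟩
    refine ⟨a', b', good a' (by omega) (by omega) hHa, good b' (by omega) (by omega) hHb, by omega, ?_⟩
    have h3 : (2 : ℕ) ^ (C₁ ^ (k + 1)) ≤ 2 ^ ((max (max C₁ C₂) 1) ^ (k + 1)) :=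
      Nat.pow_le_pow_right (by norm_num) (Nat.pow_le_pow_left
        ((le_max_left _ _).trans (le_max_left _ _)) _)
    omega
  · intro x k h hx hk h2 hhx
    have hN : N₂ ≤ x := (le_max_right _ _).trans ((le_max_left _ _).trans hx)
    have hx2 : 2 ≤ x := (le_max_right _ _).trans hx
    obtain ⟨S, hS, hSS⟩ := h₂ (2 * x) k (2 * h) (by omega) hk (by omega) (by omega)
    have hsub : ((S.image fun n => n / 2 : Finset ℕ) : Set ℕ) ⊆
        {u : ℕ | u ≤ x ∧ Good u ∧ Good (u + h)} := by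
      intro u hu
      simp only [coe_image, Set.mem_image, mem_coe] at hu
      obtain ⟨n, hn, rfl⟩ := hu
      obtain ⟨h5, h6, h7, h8, h9⟩ := hSS n hn
      refine ⟨by omega, good _ (by omega) (by omega) ?_, good _ (by omega) (by omega) ?_⟩
      · rwa [show 2 * (n / 2) = n by omega]
      · rwa [show 2 * (n / 2 + h) = n + 2 * h by omega]
    have hfin : {u : ℕ | u ≤ x ∧ Good u ∧ Good (u + h)}.Finite :=
      (Set.finite_Iic x).subset fun n hn => hn.1
    have hcard : S.card ≤ {u : ℕ | u ≤ x ∧ Good u ∧ Good (u + h)}.ncard := by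
      rw [← card_image_of_injOn (f := fun n => n / 2) (s := S) (by
        intro a ha b hb hab
        have h5 := (hSS a (mem_coe.1 ha)).2.1
        have h6 := (hSS b (mem_coe.1 hb)).2.1
        simp only at hab
        omega), ← Set.ncard_coe_finset]
      exact Set.ncard_le_ncard hsub hfin
    have hcard' : (S.card : ℝ) ≤ ({u : ℕ | u ≤ x ∧ Good u ∧ Good (u + h)}.ncard : ℝ) := by
      exact_mod_cast hcard
    refine le_trans ?_ (hS.trans hcard')
    have hxr : (2 : ℝ) ≤ x := by exact_mod_cast hx2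
    have hlog : 0 < Real.log x := Real.log_pos (by linarith)
    have hlog2 : Real.log ((2 * x : ℕ) : ℝ) ≤ 2 * Real.log x := by
      push_cast
      rw [Real.log_mul (by norm_num) (by linarith)]
      have := Real.log_le_log (by norm_num) hxr
      linarith
    have hlog3 : 0 < Real.log ((2 * x : ℕ) : ℝ) := by
      apply Real.log_pos
      push_cast
      linarith
    have h3 : (2 : ℝ) ^ (C₂ ^ (k + 1)) ≤ 2 ^ ((max (max C₁ C₂) 1) ^ (k + 1)) :=
      pow_le_pow_right₀ (by norm_num) (Nat.pow_le_pow_left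
        ((le_max_right _ _).trans (le_max_left _ _)) _)
    have h4 : (0 : ℝ) < 2 ^ (C₂ ^ (k + 1)) := by positivity
    rw [div_le_div_iff₀ (by positivity) (by positivity)]
    push_cast at hlog2 hlog3 ⊢
    calc (x : ℝ) * (2 ^ (C₂ ^ (k + 1)) * Real.log (2 * x))
        ≤ x * (2 ^ ((max (max C₁ C₂) 1) ^ (k + 1)) * (2 * Real.log x)) := by
          apply mul_le_mul_of_nonneg_left _ (by linarith)
          exact mul_le_mul h3 hlog2 hlog3.le (by positivity)
      _ = 2 * x * (2 ^ ((max (max C₁ C₂) 1) ^ (k + 1)) * Real.log x) := by ring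

end Pool.Agent.Results.MP_3038d1_co.SumsAndDifferences
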